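import Pool.Agent.WeakEss.Final

/-!
# The weak essential norm of an operator between `C(L)` and `C(K)` and that of its adjoint

For `L` compact metrizable, `K` compact Hausdorff and every bounded operator `T : C(L) → C(K)`
(real or complex scalars), `‖T*‖_w ≥ (1/4) ‖T‖_w`. With `K = L = [0,1]` this answers the question.
-/

open TopologicalSpace Pool.Agent.WeakEss

namespace Pool.Agent.Results.MP_f76f53_an.AdjointLowerBound

theorem result {𝕜 : Type*} [RCLike 𝕜] {K L : Type*}
    [TopologicalSpace K] [CompactSpace K] [T2Space K]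
    [TopologicalSpace L] [CompactSpace L] [MetrizableSpace L]
    (T : C(L, 𝕜) →L[𝕜] C(K, 𝕜)) :
    (1 / 4 : ℝ) * weakEssNorm T ≤ weakEssNorm (adjointOp T) := by
  letI : MetricSpace L := metrizableSpaceMetric L
  haveI : SecondCountableTopology L := inferInstance
  haveI : SeparableSpace C(L, ℝ) := inferInstance
  have h := weakEssNorm_le_adjoint T
  linarith

/-- The posed case `K = L = [0,1]`. -/
theorem unitInterval_case {𝕜 : Type*} [RCLike 𝕜] :
    ∃ c : ℝ, 0 < c ∧ ∀ T : C(unitInterval, 𝕜) →L[𝕜] C(unitInterval, 𝕜),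
      c * weakEssNorm T ≤ weakEssNorm (adjointOp T) :=
  ⟨1 / 4, by norm_num, fun T => result T⟩

end Pool.Agent.Results.MP_f76f53_an.AdjointLowerBound
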